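import Mathlib

set_option autoImplicit false

/-!
# MP_fffc5a_co : `(u,v)`-union-intersecting families of `k`-sets, all small `n`
-/

open Finset

namespace Pool.Agent.Results.MP_fffc5a_co.SmallN

/-- `F` is `(u,v)`-union-intersecting: the union of any `u` distinct members meets the union of any
`v` distinct members. -/
def UnionIntersecting {n : ℕ} (u v : ℕ) (F : Finset (Finset (Fin n))) : Prop :=
  ∀ P Q : Finset (Finset (Fin n)), P ⊆ F → Q ⊆ F → P.card = u → Q.card = v →
    (P.biUnion id ∩ Q.biUnion id).Nonempty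

/-- The sizes of the `(u,v)`-union-intersecting families of `k`-subsets of an `n`-set;
`m(n,k,u,v)` is the greatest element of this set. -/
def sizes (n k u v : ℕ) : Set ℕ :=
  {c | ∃ F : Finset (Finset (Fin n)), (∀ S ∈ F, S.card = k) ∧ UnionIntersecting u v F ∧
    F.card = c}

/-- `u` distinct `k`-sets have a union of size at least `a` if `C(a-1,k) < u` -/
theorem union_large {n : ℕ} (k a u : ℕ) (hu : (a - 1).choose k < u)
    (P : Finset (Finset (Fin n))) (hk : ∀ S ∈ P, S.card = k) (hP : P.card = u) :
    a ≤ (P.biUnion id).card := by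
  by_contra h
  push Not at h
  have h1 : P ⊆ powersetCard k (P.biUnion id) := by
    intro S hS
    rw [mem_powersetCard]
    exact ⟨Finset.subset_biUnion_of_mem id hS, hk S hS⟩
  have h2 := card_le_card h1
  rw [card_powersetCard, hP] at h2
  have h3 : (P.biUnion id).card.choose k ≤ (a - 1).choose k := Nat.choose_le_choose k (by omega)
  omega

/-- all `k`-subsets of a set `U` with fewer than `a + b` elements -/
theorem ui_powerset {n : ℕ} (k a b u v : ℕ) (hu : (a - 1).choose k < u)
    (hv : (b - 1).choose k < v) (U : Finset (Fin n)) (hU : U.card < a + b) :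
    UnionIntersecting u v (powersetCard k U) := by
  intro P Q hPF hQF hP hQ
  by_contra hne
  rw [not_nonempty_iff_eq_empty, ← disjoint_iff_inter_eq_empty] at hne
  have h1 := union_large k a u hu P (fun S hS => (mem_powersetCard.mp (hPF hS)).2) hP
  have h2 := union_large k b v hv Q (fun S hS => (mem_powersetCard.mp (hQF hS)).2) hQ
  have h3 : (P.biUnion id ∪ Q.biUnion id) ⊆ U := by
    apply union_subset
    · apply biUnion_subset.mpr
      intro S hS
      exact (mem_powersetCard.mp (hPF hS)).1
    · apply biUnion_subset.mpr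
      intro S hS
      exact (mem_powersetCard.mp (hQF hS)).1
  have h4 := card_le_card h3
  rw [card_union_of_disjoint hne] at h4
  omega

/-- in a union-intersecting family, of two disjoint sets one contains few members -/
theorem dichotomy {n : ℕ} (u v : ℕ) (F : Finset (Finset (Fin n))) (hF : UnionIntersecting u v F)
    (A B : Finset (Fin n)) (hAB : Disjoint A B) :
    (F.filter (· ⊆ A)).card < u ∨ (F.filter (· ⊆ B)).card < v := by
  by_contra h
  push Not at h
  obtain ⟨P, hP, hPc⟩ := exists_subset_card_eq h.1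
  obtain ⟨Q, hQ, hQc⟩ := exists_subset_card_eq h.2
  have h1 : (P.biUnion id ∩ Q.biUnion id).Nonempty :=
    hF P Q (hP.trans (filter_subset _ _)) (hQ.trans (filter_subset _ _)) hPc hQc
  obtain ⟨x, hx⟩ := h1
  rw [mem_inter, mem_biUnion, mem_biUnion] at hx
  obtain ⟨⟨S, hS, hxS⟩, ⟨T, hT, hxT⟩⟩ := hx
  have hSA := (mem_filter.mp (hP hS)).2
  have hTB := (mem_filter.mp (hQ hT)).2
  exact (disjoint_left.mp hAB (hSA hxS)) (hTB hxT)

theorem card_superset {n k a : ℕ} (S : Finset (Fin n)) (hS : S.card = k) (hka : k ≤ a) :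
    ((powersetCard a (univ : Finset (Fin n))).filter (S ⊆ ·)).card = (n - k).choose (a - k) := by
  have hc : (Sᶜ).card = n - k := by rw [card_compl, Fintype.card_fin, hS]
  rw [← hc, ← card_powersetCard]
  apply card_bij' (i := fun A _ => A \ S) (j := fun B _ => B ∪ S)
  · intro A hA
    rw [mem_filter, mem_powersetCard] at hA
    rw [mem_powersetCard]
    refine ⟨?_, ?_⟩
    · intro x hx
      rw [mem_compl]
      exact (mem_sdiff.mp hx).2
    · rw [card_sdiff_of_subset hA.2, hA.1.2, hS]
  · intro B hB
    rw [mem_powersetCard] at hB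
    rw [mem_filter, mem_powersetCard]
    refine ⟨⟨subset_univ _, ?_⟩, subset_union_right⟩
    have hd : Disjoint B S := by
      rw [disjoint_left]
      intro x hx hxS
      exact (mem_compl.mp (hB.1 hx)) hxS
    rw [card_union_of_disjoint hd, hB.2, hS]
    omega
  · intro A hA
    rw [mem_filter] at hA
    exact sdiff_union_of_subset hA.2
  · intro B hB
    rw [mem_powersetCard] at hB
    have hd : Disjoint B S := by
      rw [disjoint_left]
      intro x hx hxS
      exact (mem_compl.mp (hB.1 hx)) hxS
    exact union_sdiff_cancel_right hd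

/-- double counting -/
theorem sum_count {n k a : ℕ} (F : Finset (Finset (Fin n))) (hF : ∀ S ∈ F, S.card = k)
    (hka : k ≤ a) :
    ∑ A ∈ powersetCard a (univ : Finset (Fin n)), (F.filter (· ⊆ A)).card =
      F.card * (n - k).choose (a - k) := by
  have h1 : ∀ A : Finset (Fin n), (F.filter (· ⊆ A)).card = ∑ S ∈ F, if S ⊆ A then 1 else 0 := by
    intro A
    rw [card_filter]
  simp_rw [h1]
  rw [sum_comm]
  have h2 : ∀ S ∈ F, (∑ A ∈ powersetCard a (univ : Finset (Fin n)), if S ⊆ A then 1 else 0) =
      (n - k).choose (a - k) := by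
    intro S hS
    rw [← card_filter]
    exact card_superset S (hF S hS) hka
  rw [sum_congr rfl h2, sum_const, smul_eq_mul]

/-- sum over ordered pairs of disjoint sets, first coordinate -/
theorem pairs_fst {n a b : ℕ} (f : Finset (Fin n) → ℤ) :
    ∑ A ∈ powersetCard a (univ : Finset (Fin n)), ∑ _B ∈ powersetCard b Aᶜ, f A =
      ((n - a).choose b : ℤ) * ∑ A ∈ powersetCard a (univ : Finset (Fin n)), f A := by
  rw [mul_sum]
  apply sum_congr rfl
  intro A hA
  rw [sum_const, card_powersetCard, card_compl, Fintype.card_fin, (mem_powersetCard.mp hA).2]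
  simp

/-- sum over ordered pairs of disjoint sets, second coordinate -/
theorem pairs_snd {n a b : ℕ} (f : Finset (Fin n) → ℤ) :
    ∑ A ∈ powersetCard a (univ : Finset (Fin n)), ∑ B ∈ powersetCard b Aᶜ, f B =
      ((n - b).choose a : ℤ) * ∑ B ∈ powersetCard b (univ : Finset (Fin n)), f B := by
  rw [← pairs_fst f]
  apply sum_comm'
  intro A B
  simp only [mem_powersetCard, subset_univ, true_and]
  constructor
  · rintro ⟨h1, h2, h3⟩
    exact ⟨⟨subset_compl_comm.mp h2, h1⟩, h3⟩
  · rintro ⟨⟨h1, h2⟩, h3⟩
    exact ⟨h2, subset_compl_comm.mp h1, h3⟩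

/-- upper bound for every `n ≥ a + b` -/
theorem upper {n k a b u v : ℕ} (ha : k ≤ a) (hb : k ≤ b) (hu : u ≤ a.choose k)
    (hv : v ≤ b.choose k) (hn : a + b ≤ n) (F : Finset (Finset (Fin n)))
    (hk : ∀ S ∈ F, S.card = k) (hF : UnionIntersecting u v F) :
    (n.choose k : ℤ) * ((a.choose k : ℤ) + 1 - u) * ((b.choose k : ℤ) + 1 - v) ≤
      ((n.choose k : ℤ) - F.card) * ((a.choose k : ℤ) * ((b.choose k : ℤ) + 1 - v) +
        (b.choose k : ℤ) * ((a.choose k : ℤ) + 1 - u)) := by
  set N : ℤ := (n.choose k : ℤ) with hN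
  set Ca : ℤ := (a.choose k : ℤ) with hCa
  set Cb : ℤ := (b.choose k : ℤ) with hCb
  set du : ℤ := Ca + 1 - u with hdu
  set dv : ℤ := Cb + 1 - v with hdv
  have hdu0 : 0 < du := by
    have : (u : ℤ) ≤ Ca := by rw [hCa]; exact_mod_cast hu
    linarith
  have hdv0 : 0 < dv := by
    have : (v : ℤ) ≤ Cb := by rw [hCb]; exact_mod_cast hv
    linarith
  let f : Finset (Fin n) → ℤ := fun A => ((F.filter (· ⊆ A)).card : ℤ)
  have hfle : ∀ A : Finset (Fin n), (f A) ≤ (A.card.choose k : ℤ) := by
    intro A
    have : F.filter (· ⊆ A) ⊆ powersetCard k A := by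
      intro S hS
      rw [mem_filter] at hS
      rw [mem_powersetCard]
      exact ⟨hS.2, hk S hS.1⟩
    have := card_le_card this
    rw [card_powersetCard] at this
    show ((F.filter (· ⊆ A)).card : ℤ) ≤ _
    exact_mod_cast this
  -- pointwise inequality
  have hpt : ∀ A ∈ powersetCard a (univ : Finset (Fin n)), ∀ B ∈ powersetCard b Aᶜ,
      du * dv ≤ dv * (Ca - f A) + du * (Cb - f B) := by
    intro A hA B hB
    rw [mem_powersetCard] at hA hB
    have h1 : f A ≤ Ca := by have := hfle A; rwa [hA.2] at this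
    have h2 : f B ≤ Cb := by have := hfle B; rwa [hB.2] at this
    have hdis : Disjoint A B := by
      rw [disjoint_right]
      intro x hx
      exact mem_compl.mp (hB.1 hx)
    rcases dichotomy u v F hF A B hdis with h | h
    · have h3 : f A + 1 ≤ u := by
        have : (F.filter (· ⊆ A)).card + 1 ≤ u := h
        show ((F.filter (· ⊆ A)).card : ℤ) + 1 ≤ u
        exact_mod_cast this
      have h4 : du ≤ Ca - f A := by rw [hdu]; linarith
      nlinarith [mul_le_mul_of_nonneg_left h4 hdv0.le, mul_nonneg hdu0.le (sub_nonneg.mpr h2)]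
    · have h3 : f B + 1 ≤ v := by
        have : (F.filter (· ⊆ B)).card + 1 ≤ v := h
        show ((F.filter (· ⊆ B)).card : ℤ) + 1 ≤ v
        exact_mod_cast this
      have h4 : dv ≤ Cb - f B := by rw [hdv]; linarith
      nlinarith [mul_le_mul_of_nonneg_left h4 hdu0.le, mul_nonneg hdv0.le (sub_nonneg.mpr h1)]
  have hsum := sum_le_sum (fun A hA => sum_le_sum (hpt A hA))
  -- evaluate
  set E : ℤ := ∑ A ∈ powersetCard a (univ : Finset (Fin n)), ∑ _B ∈ powersetCard b Aᶜ, (1 : ℤ)
    with hE
  have hE1 : E = ((n - a).choose b : ℤ) * (n.choose a : ℤ) := by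
    rw [hE, pairs_fst (fun _ => (1 : ℤ)), sum_const, card_powersetCard, card_univ,
      Fintype.card_fin]
    simp
  have hE2 : E = ((n - b).choose a : ℤ) * (n.choose b : ℤ) := by
    rw [hE, pairs_snd (fun _ => (1 : ℤ)), sum_const, card_powersetCard, card_univ,
      Fintype.card_fin]
    simp
  set SA : ℤ := ∑ A ∈ powersetCard a (univ : Finset (Fin n)), ∑ _B ∈ powersetCard b Aᶜ, f A
    with hSA
  set SB : ℤ := ∑ A ∈ powersetCard a (univ : Finset (Fin n)), ∑ B ∈ powersetCard b Aᶜ, f B
    with hSB
  have hSA1 : N * SA = E * F.card * Ca := by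
    rw [hSA, pairs_fst f, hE1]
    have h1 : ∑ A ∈ powersetCard a (univ : Finset (Fin n)), f A =
        (F.card : ℤ) * ((n - k).choose (a - k) : ℤ) := by
      have := sum_count F hk ha
      show ∑ A ∈ powersetCard a (univ : Finset (Fin n)), ((F.filter (· ⊆ A)).card : ℤ) = _
      exact_mod_cast this
    have h2 : (n.choose a : ℤ) * Ca = N * ((n - k).choose (a - k) : ℤ) := by
      have := Nat.choose_mul (n := n) (k := a) (s := k) ha
      rw [hCa, hN]
      exact_mod_cast this
    rw [h1]
    linear_combination (-((n - a).choose b : ℤ) * F.card) * h2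
  have hSB1 : N * SB = E * F.card * Cb := by
    rw [hSB, pairs_snd f, hE2]
    have h1 : ∑ A ∈ powersetCard b (univ : Finset (Fin n)), f A =
        (F.card : ℤ) * ((n - k).choose (b - k) : ℤ) := by
      have := sum_count F hk hb
      show ∑ A ∈ powersetCard b (univ : Finset (Fin n)), ((F.filter (· ⊆ A)).card : ℤ) = _
      exact_mod_cast this
    have h2 : (n.choose b : ℤ) * Cb = N * ((n - k).choose (b - k) : ℤ) := by
      have := Nat.choose_mul (n := n) (k := b) (s := k) hb
      rw [hCb, hN]
      exact_mod_cast this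
    rw [h1]
    linear_combination (-((n - b).choose a : ℤ) * F.card) * h2
  have hEpos : 0 < E := by
    rw [hE1]
    have h1 : 0 < (n - a).choose b := Nat.choose_pos (by omega)
    have h2 : 0 < n.choose a := Nat.choose_pos (by omega)
    exact_mod_cast Nat.mul_pos h1 h2
  have hNpos : 0 < N := by
    rw [hN]
    exact_mod_cast Nat.choose_pos (by omega : k ≤ n)
  have hl : ∑ A ∈ powersetCard a (univ : Finset (Fin n)), ∑ _B ∈ powersetCard b Aᶜ, du * dv =
      du * dv * E := by
    rw [hE, mul_sum]
    apply sum_congr rfl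
    intro A _
    rw [mul_sum]
    simp
  have hr : ∑ A ∈ powersetCard a (univ : Finset (Fin n)), ∑ B ∈ powersetCard b Aᶜ,
      (dv * (Ca - f A) + du * (Cb - f B)) = (dv * Ca + du * Cb) * E - dv * SA - du * SB := by
    rw [hE, hSA, hSB, mul_sum, mul_sum, mul_sum, ← sum_sub_distrib, ← sum_sub_distrib]
    apply sum_congr rfl
    intro A _
    rw [mul_sum, mul_sum, mul_sum, ← sum_sub_distrib, ← sum_sub_distrib]
    apply sum_congr rfl
    intro B _
    ring
  rw [hl, hr] at hsum
  have h5 : E * (N * du * dv) ≤ E * ((N - F.card) * (Ca * dv + Cb * du)) := by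
    have h6 := mul_le_mul_of_nonneg_left hsum hNpos.le
    linear_combination h6 - dv * hSA1 - du * hSB1
  exact le_of_mul_le_mul_left h5 hEpos

/-- **Small `n`.**  Let `a`, `b` be the least sizes of unions of `u`, respectively `v`, distinct
`k`-sets. -/
theorem small_n (n k a b u v : ℕ) (hk1 : 1 ≤ k) (ha : k ≤ a) (hb : k ≤ b)
    (hu : (a - 1).choose k < u) (hu' : u ≤ a.choose k)
    (hv : (b - 1).choose k < v) (hv' : v ≤ b.choose k) :
    (n < a + b → IsGreatest (sizes n k u v) (n.choose k)) ∧
    (a + b ≤ n → ∀ c ∈ sizes n k u v,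
      n.choose k * (a.choose k + 1 - u) * (b.choose k + 1 - v) ≤
        (n.choose k - c) * (a.choose k * (b.choose k + 1 - v) + b.choose k * (a.choose k + 1 - u))) ∧
    (u = (a - 1).choose k + 1 → v = (b - 1).choose k + 1 → n = a + b →
      IsGreatest (sizes n k u v) ((n - 1).choose k)) := by
  have hub : ∀ c ∈ sizes n k u v, c ≤ n.choose k := by
    rintro c ⟨F, hF, -, rfl⟩
    have : F ⊆ powersetCard k (univ : Finset (Fin n)) := by
      intro S hS
      rw [mem_powersetCard]
      exact ⟨subset_univ _, hF S hS⟩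
    have := card_le_card this
    rwa [card_powersetCard, card_univ, Fintype.card_fin] at this
  have hmain : a + b ≤ n → ∀ c ∈ sizes n k u v,
      n.choose k * (a.choose k + 1 - u) * (b.choose k + 1 - v) ≤
        (n.choose k - c) *
          (a.choose k * (b.choose k + 1 - v) + b.choose k * (a.choose k + 1 - u)) := by
    intro hn c hc
    have hcn := hub c hc
    obtain ⟨F, hF, hUI, rfl⟩ := hc
    have h := upper ha hb hu' hv' hn F hF hUI
    have e1 : ((a.choose k + 1 - u : ℕ) : ℤ) = (a.choose k : ℤ) + 1 - u := by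
      push_cast [Nat.cast_sub (by omega : u ≤ a.choose k + 1)]; ring
    have e2 : ((b.choose k + 1 - v : ℕ) : ℤ) = (b.choose k : ℤ) + 1 - v := by
      push_cast [Nat.cast_sub (by omega : v ≤ b.choose k + 1)]; ring
    have e3 : ((n.choose k - F.card : ℕ) : ℤ) = (n.choose k : ℤ) - F.card := by
      push_cast [Nat.cast_sub hcn]; ring
    rw [← e1, ← e2, ← e3] at h
    exact_mod_cast h
  refine ⟨?_, hmain, ?_⟩
  · intro hn
    refine ⟨⟨powersetCard k univ, fun S hS => (mem_powersetCard.mp hS).2,
      ui_powerset k a b u v hu hv univ (by rw [card_univ, Fintype.card_fin]; exact hn), ?_⟩, hub⟩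
    rw [card_powersetCard, card_univ, Fintype.card_fin]
  · intro hue hve hn
    have hn0 : 0 < n := by omega
    refine ⟨⟨powersetCard k (univ.erase (⟨0, hn0⟩ : Fin n)),
      fun S hS => (mem_powersetCard.mp hS).2, ?_, ?_⟩, ?_⟩
    · apply ui_powerset k a b u v hu hv
      rw [card_erase_of_mem (mem_univ _), card_univ, Fintype.card_fin]
      omega
    · rw [card_powersetCard, card_erase_of_mem (mem_univ _), card_univ, Fintype.card_fin]
    · intro c hc
      have h := hmain (by omega) c hc
      have hcn := hub c hc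
      obtain ⟨k', rfl⟩ : ∃ k', k = k' + 1 := ⟨k - 1, by omega⟩
      obtain ⟨a', rfl⟩ : ∃ a', a = a' + 1 := ⟨a - 1, by omega⟩
      obtain ⟨b', rfl⟩ : ∃ b', b = b' + 1 := ⟨b - 1, by omega⟩
      simp only [Nat.add_sub_cancel] at hue hve
      have ea : (a' + 1).choose (k' + 1) + 1 - u = a'.choose k' := by
        rw [hue, Nat.choose_succ_succ']; omega
      have eb : (b' + 1).choose (k' + 1) + 1 - v = b'.choose k' := by
        rw [hve, Nat.choose_succ_succ']; omega
      rw [ea, eb] at h
      have pa := Nat.add_one_mul_choose_eq a' k'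
      have pb := Nat.add_one_mul_choose_eq b' k'
      obtain ⟨n', hn'⟩ : ∃ n', n = n' + 1 := ⟨n - 1, by omega⟩
      subst hn'
      have pn := Nat.add_one_mul_choose_eq n' k'
      have hsplit := Nat.choose_succ_succ' n' k'
      rw [Nat.add_sub_cancel]
      obtain ⟨d, hd⟩ : ∃ d, (n' + 1).choose (k' + 1) = c + d :=
        ⟨(n' + 1).choose (k' + 1) - c, by omega⟩
      have hd' : (n' + 1).choose (k' + 1) - c = d := by omega
      rw [hd'] at h
      have hA : 0 < a'.choose k' := Nat.choose_pos (by omega)
      have hB : 0 < b'.choose k' := Nat.choose_pos (by omega)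
      -- multiply by `k`
      have h1 : (n' + 1) * n'.choose k' * (a'.choose k' * b'.choose k') ≤
          (n' + 1) * d * (a'.choose k' * b'.choose k') := by
        have h2 := Nat.mul_le_mul_left (k' + 1) h
        have h3 : (k' + 1) * ((n' + 1).choose (k' + 1) * a'.choose k' * b'.choose k') =
            (n' + 1) * n'.choose k' * (a'.choose k' * b'.choose k') := by
          have : (n' + 1) * n'.choose k' = (n' + 1).choose (k' + 1) * (k' + 1) := pn
          rw [this]; ring
        have h4 : (k' + 1) * (d * ((a' + 1).choose (k' + 1) * b'.choose k' +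
            (b' + 1).choose (k' + 1) * a'.choose k')) =
            (n' + 1) * d * (a'.choose k' * b'.choose k') := by
          have ha1 : (a' + 1).choose (k' + 1) * (k' + 1) = (a' + 1) * a'.choose k' := pa.symm
          have hb1 : (b' + 1).choose (k' + 1) * (k' + 1) = (b' + 1) * b'.choose k' := pb.symm
          have : (k' + 1) * (d * ((a' + 1).choose (k' + 1) * b'.choose k' +
            (b' + 1).choose (k' + 1) * a'.choose k')) =
            d * (((a' + 1).choose (k' + 1) * (k' + 1)) * b'.choose k' +
            ((b' + 1).choose (k' + 1) * (k' + 1)) * a'.choose k') := by ring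
          rw [this, ha1, hb1, hn]
          ring
        rw [h3, h4] at h2
        exact h2
      have h5 := Nat.le_of_mul_le_mul_right h1 (Nat.mul_pos hA hB)
      have h6 := Nat.le_of_mul_le_mul_left h5 (Nat.succ_pos n')
      omega

theorem choose_ge (c j : ℕ) (hj : 1 ≤ j) : c ≤ (c + j).choose j := by
  induction c with
  | zero => exact Nat.zero_le _
  | succ c ih =>
    obtain ⟨i, rfl⟩ : ∃ i, j = i + 1 := ⟨j - 1, by omega⟩
    have e : c + 1 + (i + 1) = (c + (i + 1)) + 1 := by ring
    rw [e, Nat.choose_succ_succ']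
    have h : 0 < (c + (i + 1)).choose i := Nat.choose_pos (by omega)
    omega

/-- The numbers of edges of the `k`-graphs for which every 2-colouring of the vertices has at least
`d` edges inside the first class or at least `e` edges inside the second class. For `d = e = 1`
the least element is the Property B number of Erdős and Hajnal. -/
def colourNumbers (k d e : ℕ) : Set ℕ :=
  {N | ∃ (m : ℕ) (M : Finset (Finset (Fin m))), (∀ S ∈ M, S.card = k) ∧
    (∀ A : Finset (Fin m), d ≤ (M.filter (· ⊆ A)).card ∨ e ≤ (M.filter (· ⊆ Aᶜ)).card) ∧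
    M.card = N}

theorem colour_nonempty (k d e : ℕ) (hk : 1 ≤ k) : (colourNumbers k d e).Nonempty := by
  refine ⟨_, d + e + 2 * k, powersetCard k univ, fun S hS => (mem_powersetCard.mp hS).2, ?_, rfl⟩
  intro A
  have key : ∀ (c : ℕ) (B : Finset (Fin (d + e + 2 * k))), c + k ≤ B.card →
      c ≤ ((powersetCard k (univ : Finset (Fin (d + e + 2 * k)))).filter (· ⊆ B)).card := by
    intro c B hB
    have h1 : powersetCard k B ⊆ (powersetCard k univ).filter (· ⊆ B) := by
      intro S hS
      rw [mem_powersetCard] at hS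
      rw [mem_filter, mem_powersetCard]
      exact ⟨⟨subset_univ _, hS.2⟩, hS.1⟩
    have h := card_le_card h1
    rw [card_powersetCard] at h
    exact (choose_ge c k hk).trans ((Nat.choose_le_choose k hB).trans h)
  have hc : A.card + Aᶜ.card = d + e + 2 * k := by rw [card_add_card_compl, Fintype.card_fin]
  rcases Nat.lt_or_ge A.card (d + k) with h | h
  · right; apply key; omega
  · left; apply key; omega

theorem few {n k a d : ℕ} (M P : Finset (Finset (Fin n))) (hM : ∀ S ∈ M, S.card = k)
    (hP : P ⊆ powersetCard k univ \ M) (hPc : P.card = a.choose k + 1 - d) (_hd : 1 ≤ d)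
    (hU : (P.biUnion id).card = a) : (M.filter (· ⊆ P.biUnion id)).card < d := by
  have hdis : Disjoint P (M.filter (· ⊆ P.biUnion id)) := by
    rw [disjoint_left]
    intro S hS hS'
    exact (mem_sdiff.mp (hP hS)).2 (mem_filter.mp hS').1
  have hsub : P ∪ M.filter (· ⊆ P.biUnion id) ⊆ powersetCard k (P.biUnion id) := by
    apply union_subset
    · intro S hS
      rw [mem_powersetCard]
      exact ⟨subset_biUnion_of_mem id hS, (mem_powersetCard.mp (mem_sdiff.mp (hP hS)).1).2⟩
    · intro S hS
      rw [mem_filter] at hS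
      rw [mem_powersetCard]
      exact ⟨hS.2, hM S hS.1⟩
  have h := card_le_card hsub
  rw [card_union_of_disjoint hdis, card_powersetCard, hU, hPc] at h
  omega

theorem fixed_defect (k d e N : ℕ) (hk : 2 ≤ k) (hd : 1 ≤ d) (he : 1 ≤ e)
    (hN : IsLeast (colourNumbers k d e) N) :
    ∃ a₀ : ℕ, ∀ a b : ℕ, a₀ ≤ a → a₀ ≤ b →
      (a - 1).choose k < a.choose k + 1 - d ∧ (b - 1).choose k < b.choose k + 1 - e ∧
      IsGreatest (sizes (a + b) k (a.choose k + 1 - d) (b.choose k + 1 - e))
        ((a + b).choose k - N) := by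
  obtain ⟨⟨m, M, hMk, hMcol, hMN⟩, hmin⟩ := hN
  have hrange : ∀ a c : ℕ, k + c + 1 ≤ a → (a - 1).choose k < a.choose k + 1 - c := by
    intro a c ha
    obtain ⟨a', rfl⟩ : ∃ a', a = a' + 1 := ⟨a - 1, by omega⟩
    obtain ⟨k', rfl⟩ : ∃ k', k = k' + 1 := ⟨k - 1, by omega⟩
    rw [Nat.add_sub_cancel, Nat.choose_succ_succ']
    have h1 := choose_ge c k' (by omega)
    have h2 : (c + k').choose k' ≤ a'.choose k' := Nat.choose_le_choose k' (by omega)
    omega
  refine ⟨m + k * N + d + e + k + 1, fun a b ha hb => ?_⟩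
  have hra := hrange a d (by omega)
  have hrb := hrange b e (by omega)
  refine ⟨hra, hrb, ?_, ?_⟩
  · have hmn : m ≤ a + b := by omega
    let ι : Fin m ↪ Fin (a + b) := Fin.castLEEmb hmn
    let M' : Finset (Finset (Fin (a + b))) := M.image (fun S => S.map ι)
    have hM'k : ∀ S ∈ M', S.card = k := by
      intro S hS
      obtain ⟨T, hT, rfl⟩ := mem_image.mp hS
      rw [card_map]; exact hMk T hT
    have hM'c : M'.card = N := by
      rw [card_image_of_injective _ (map_injective ι), hMN]
    have hM'sub : M' ⊆ powersetCard k univ := by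
      intro S hS
      rw [mem_powersetCard]
      exact ⟨subset_univ _, hM'k S hS⟩
    have hcount : ∀ (B : Finset (Fin (a + b))) (A : Finset (Fin m)),
        (∀ x, x ∈ A ↔ ι x ∈ B) → (M.filter (· ⊆ A)).card = (M'.filter (· ⊆ B)).card := by
      intro B A hAB
      have : M'.filter (· ⊆ B) = (M.filter (· ⊆ A)).image (fun S => S.map ι) := by
        ext T
        simp only [M', mem_filter, mem_image]
        constructor
        · rintro ⟨⟨S, hS, rfl⟩, hT⟩
          refine ⟨S, ⟨hS, ?_⟩, rfl⟩
          intro x hx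
          rw [hAB]
          exact hT (mem_map_of_mem ι hx)
        · rintro ⟨S, ⟨hS, hSA⟩, rfl⟩
          refine ⟨⟨S, hS, rfl⟩, ?_⟩
          intro y hy
          obtain ⟨x, hx, rfl⟩ := mem_map.mp hy
          rw [← hAB]
          exact hSA hx
      rw [this, card_image_of_injective _ (map_injective ι)]
    refine ⟨powersetCard k univ \ M', ?_, ?_, ?_⟩
    · intro S hS
      exact (mem_powersetCard.mp (mem_sdiff.mp hS).1).2
    · intro P Q hP hQ hPc hQc
      by_contra hne
      rw [not_nonempty_iff_eq_empty, ← disjoint_iff_inter_eq_empty] at hne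
      have hPk : ∀ S ∈ P, S.card = k := fun S hS =>
        (mem_powersetCard.mp (mem_sdiff.mp (hP hS)).1).2
      have hQk : ∀ S ∈ Q, S.card = k := fun S hS =>
        (mem_powersetCard.mp (mem_sdiff.mp (hQ hS)).1).2
      have h1 := union_large k a _ hra P hPk hPc
      have h2 := union_large k b _ hrb Q hQk hQc
      have h4 := card_le_card (subset_univ (P.biUnion id ∪ Q.biUnion id))
      rw [card_union_of_disjoint hne, card_univ, Fintype.card_fin] at h4
      have h5 : (P.biUnion id).card = a := by omega
      have h6 : (Q.biUnion id).card = b := by omega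
      have h7 := few M' P hM'k hP hPc hd h5
      have h8 := few M' Q hM'k hQ hQc he h6
      have h9 : (P.biUnion id)ᶜ = Q.biUnion id := by
        symm
        apply eq_of_subset_of_card_le
        · intro x hx
          rw [mem_compl]
          exact fun hx' => (disjoint_left.mp hne hx') hx
        · rw [card_compl, Fintype.card_fin, h5, h6]; omega
      have h10 := hMcol (univ.filter (fun x => ι x ∈ P.biUnion id))
      rw [hcount (P.biUnion id) _ (by intro x; simp),
        hcount ((P.biUnion id)ᶜ) _ (by intro x; simp), h9] at h10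
      omega
    · rw [card_sdiff_of_subset hM'sub, hM'c, card_powersetCard, card_univ, Fintype.card_fin]
  · rintro c ⟨F, hFk, hUI, rfl⟩
    by_contra hlt
    push Not at hlt
    have hFsub : F ⊆ powersetCard k univ := by
      intro S hS
      rw [mem_powersetCard]
      exact ⟨subset_univ _, hFk S hS⟩
    let M₁ : Finset (Finset (Fin (a + b))) := powersetCard k univ \ F
    have hM₁k : ∀ S ∈ M₁, S.card = k := fun S hS =>
      (mem_powersetCard.mp (mem_sdiff.mp hS).1).2
    have hM₁c : M₁.card < N := by
      have h1 : M₁.card = (a + b).choose k - F.card := by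
        rw [card_sdiff_of_subset hFsub, card_powersetCard, card_univ, Fintype.card_fin]
      have h2 := card_le_card hFsub
      rw [card_powersetCard, card_univ, Fintype.card_fin] at h2
      omega
    have hnot : ¬ ∀ A : Finset (Fin (a + b)), d ≤ (M₁.filter (· ⊆ A)).card ∨
        e ≤ (M₁.filter (· ⊆ Aᶜ)).card := by
      intro hcol
      have := hmin ⟨a + b, M₁, hM₁k, hcol, rfl⟩
      omega
    push Not at hnot
    obtain ⟨A, hA1, hA2⟩ := hnot
    have hV : (M₁.biUnion id).card ≤ k * N := by
      have h1 : (M₁.biUnion id).card ≤ M₁.card * k :=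
        card_biUnion_le_card_mul M₁ id k (fun S hS => (hM₁k S hS).le)
      have h2 : M₁.card * k ≤ N * k := Nat.mul_le_mul_right k hM₁c.le
      rw [mul_comm k N]
      exact h1.trans h2
    obtain ⟨A', hA'1, hA'2, hA'3⟩ : ∃ A' : Finset (Fin (a + b)), A ∩ M₁.biUnion id ⊆ A' ∧
        A' ⊆ (M₁.biUnion id \ A)ᶜ ∧ A'.card = a := by
      apply exists_subsuperset_card_eq
      · intro x hx
        rw [mem_inter] at hx
        rw [mem_compl, mem_sdiff]
        exact fun h => h.2 hx.1
      · have := card_le_card (inter_subset_right : A ∩ M₁.biUnion id ⊆ M₁.biUnion id)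
        omega
      · have := card_le_card (sdiff_subset : M₁.biUnion id \ A ⊆ M₁.biUnion id)
        rw [card_compl, Fintype.card_fin]
        omega
    have hB1 : (M₁.filter (· ⊆ A')).card < d := by
      refine lt_of_le_of_lt (card_le_card ?_) hA1
      intro S hS
      rw [mem_filter] at hS ⊢
      refine ⟨hS.1, ?_⟩
      intro x hx
      have hxV : x ∈ M₁.biUnion id := subset_biUnion_of_mem id hS.1 hx
      have := hA'2 (hS.2 hx)
      rw [mem_compl, mem_sdiff] at this
      by_contra hxA
      exact this ⟨hxV, hxA⟩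
    have hB2 : (M₁.filter (· ⊆ A'ᶜ)).card < e := by
      refine lt_of_le_of_lt (card_le_card ?_) hA2
      intro S hS
      rw [mem_filter] at hS ⊢
      refine ⟨hS.1, ?_⟩
      intro x hx
      have hxV : x ∈ M₁.biUnion id := subset_biUnion_of_mem id hS.1 hx
      rw [mem_compl]
      intro hxA
      have h1 := hA'1 (mem_inter.mpr ⟨hxA, hxV⟩)
      exact (mem_compl.mp (hS.2 hx)) h1
    have hsplit : ∀ B : Finset (Fin (a + b)),
        B.card.choose k ≤ (F.filter (· ⊆ B)).card + (M₁.filter (· ⊆ B)).card := by
      intro B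
      have h1 : powersetCard k B ⊆ F.filter (· ⊆ B) ∪ M₁.filter (· ⊆ B) := by
        intro S hS
        rw [mem_powersetCard] at hS
        rw [mem_union, mem_filter, mem_filter]
        by_cases hSF : S ∈ F
        · exact Or.inl ⟨hSF, hS.1⟩
        · refine Or.inr ⟨?_, hS.1⟩
          exact mem_sdiff.mpr ⟨mem_powersetCard.mpr ⟨subset_univ _, hS.2⟩, hSF⟩
      have h2 := card_le_card h1
      rw [card_powersetCard] at h2
      exact h2.trans (card_union_le _ _)
    have hdich := dichotomy _ _ F hUI A' A'ᶜ disjoint_compl_right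
    have e1 := hsplit A'
    have e2 := hsplit A'ᶜ
    rw [card_compl, Fintype.card_fin, hA'3, Nat.add_sub_cancel_left] at e2
    rw [hA'3] at e1
    omega

/-! ### graphs, `u = v = 2` -/

theorem pair_le {n : ℕ} (F : Finset (Finset (Fin n))) (A S T : Finset (Fin n)) (hS : S ∈ F)
    (hT : T ∈ F) (hne : S ≠ T) (hSA : S ⊆ A) (hTA : T ⊆ A) : 2 ≤ (F.filter (· ⊆ A)).card := by
  have h1 : ({S, T} : Finset (Finset (Fin n))) ⊆ F.filter (· ⊆ A) := by
    intro R hR
    rw [mem_insert, mem_singleton] at hR
    rw [mem_filter]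
    rcases hR with rfl | rfl
    · exact ⟨hS, hSA⟩
    · exact ⟨hT, hTA⟩
  have h2 := card_le_card h1
  rwa [card_pair hne] at h2

theorem pair_inj {n : ℕ} (x y z : Fin n) (hy : y ≠ x) (h : ({x, y} : Finset (Fin n)) = {x, z}) :
    y = z := by
  have : y ∈ ({x, z} : Finset (Fin n)) := by rw [← h]; simp
  rw [mem_insert, mem_singleton] at this
  rcases this with h1 | h1
  · exact absurd h1 hy
  · exact h1

theorem graph_upper {n : ℕ} (F : Finset (Finset (Fin n))) (hF : ∀ S ∈ F, S.card = 2)
    (hUI : UnionIntersecting 2 2 F) : F.card ≤ max n 10 := by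
  classical
  by_contra hlt
  push Not at hlt
  have h10 : 10 < F.card := lt_of_le_of_lt (le_max_right _ _) hlt
  have hn : n < F.card := lt_of_le_of_lt (le_max_left _ _) hlt
  have hFne : F.Nonempty := card_pos.mp (by omega)
  obtain ⟨S0, hS0⟩ := hFne
  have hS0ne : S0.Nonempty := card_pos.mp (by rw [hF S0 hS0]; norm_num)
  obtain ⟨x0, _⟩ := hS0ne
  let E : Fin n → Finset (Finset (Fin n)) := fun x => F.filter (fun S => x ∈ S)
  obtain ⟨x, -, hmax⟩ := exists_max_image (univ : Finset (Fin n)) (fun x => (E x).card)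
    ⟨x0, mem_univ _⟩
  let N : Finset (Fin n) := univ.filter (fun y => y ≠ x ∧ ({x, y} : Finset (Fin n)) ∈ F)
  have hNmem : ∀ y, y ∈ N ↔ y ≠ x ∧ ({x, y} : Finset (Fin n)) ∈ F := by
    intro y; simp [N]
  let F' : Finset (Finset (Fin n)) := F.filter (fun S => ¬ x ∈ S)
  have hF'mem : ∀ S, S ∈ F' ↔ S ∈ F ∧ x ∉ S := by intro S; simp [F']
  have hEN : E x = N.image (fun y => ({x, y} : Finset (Fin n))) := by
    ext S
    simp only [E, mem_filter, mem_image]
    constructor
    · rintro ⟨hS, hx⟩
      obtain ⟨a, b, hab, rfl⟩ := card_eq_two.mp (hF S hS)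
      rw [mem_insert, mem_singleton] at hx
      rcases hx with rfl | rfl
      · exact ⟨b, (hNmem b).mpr ⟨hab.symm, hS⟩, rfl⟩
      · exact ⟨a, (hNmem a).mpr ⟨hab, by rwa [pair_comm]⟩, by rw [pair_comm]⟩
    · rintro ⟨y, hy, rfl⟩
      exact ⟨((hNmem y).mp hy).2, by simp⟩
  have hENc : (E x).card = N.card := by
    rw [hEN]
    apply card_image_of_injOn
    intro y hy z _ h
    exact pair_inj x y z ((hNmem y).mp hy).1 h
  have hsum : F.card = N.card + F'.card := by
    rw [← hENc]
    exact (card_filter_add_card_filter_not (fun S => x ∈ S)).symm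
  have hNn : N.card + 1 ≤ n := by
    have h1 : N ⊆ univ.erase x := by
      intro y hy
      exact mem_erase.mpr ⟨((hNmem y).mp hy).1, mem_univ _⟩
    have h2 := card_le_card h1
    rw [card_erase_of_mem (mem_univ _), card_univ, Fintype.card_fin] at h2
    have := x.pos
    omega
  have hF'2 : 2 ≤ F'.card := by omega
  -- key fact
  have hkey : ∀ e ∈ F', ∀ f ∈ F', e ≠ f → (N \ (e ∪ f)).card ≤ 1 := by
    intro e he f hf hef
    by_contra hc
    push Not at hc
    obtain ⟨y, hy, z, hz, hyz⟩ := one_lt_card.mp hc
    rw [mem_sdiff] at hy hz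
    have h1 := pair_le F (e ∪ f) e f ((hF'mem e).mp he).1 ((hF'mem f).mp hf).1 hef
      subset_union_left subset_union_right
    have hxe : x ∉ e ∪ f := by
      rw [mem_union, not_or]
      exact ⟨((hF'mem e).mp he).2, ((hF'mem f).mp hf).2⟩
    have h2 := pair_le F (e ∪ f)ᶜ {x, y} {x, z} ((hNmem y).mp hy.1).2 ((hNmem z).mp hz.1).2
      (fun h => hyz (pair_inj x y z ((hNmem y).mp hy.1).1 h))
      (by
        intro w hw
        rw [mem_insert, mem_singleton] at hw
        rw [mem_compl]
        rcases hw with rfl | rfl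
        · exact hxe
        · exact hy.2)
      (by
        intro w hw
        rw [mem_insert, mem_singleton] at hw
        rw [mem_compl]
        rcases hw with rfl | rfl
        · exact hxe
        · exact hz.2)
    rcases dichotomy 2 2 F hUI (e ∪ f) (e ∪ f)ᶜ disjoint_compl_right with h | h <;> omega
  -- an edge `g` off `x` that misses three neighbours of `x`
  have hg : ∀ g ∈ F', 3 ≤ (N \ g).card → False := by
    intro g hgF hg3
    have hall : ∀ f ∈ F'.erase g, f ⊆ N \ g ∧ (N \ g).card ≤ 3 := by
      intro f hf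
      rw [mem_erase] at hf
      have h1' : ((N \ g) \ f).card ≤ 1 := by
        have : N \ (g ∪ f) = (N \ g) \ f := by
          ext w; simp only [mem_sdiff, mem_union]; tauto
        rw [← this]
        exact hkey g hgF f hf.2 hf.1.symm
      have h2 := card_sdiff_add_card_inter (N \ g) f
      have h3 : (N \ g ∩ f).card ≤ 2 := by
        have := card_le_card (inter_subset_right : N \ g ∩ f ⊆ f)
        rwa [hF f ((hF'mem f).mp hf.2).1] at this
      have h4 : N \ g ∩ f = f := by
        apply eq_of_subset_of_card_le inter_subset_right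
        rw [hF f ((hF'mem f).mp hf.2).1]
        omega
      exact ⟨by rw [← h4]; exact inter_subset_left, by omega⟩
    have hcard : (F'.erase g).card = F'.card - 1 := card_erase_of_mem hgF
    obtain ⟨f0, hf0⟩ : (F'.erase g).Nonempty := card_pos.mp (by omega)
    have h3 := (hall f0 hf0).2
    have hsub : F'.erase g ⊆ powersetCard 2 (N \ g) := by
      intro f hf
      rw [mem_powersetCard]
      exact ⟨(hall f hf).1, hF f ((hF'mem f).mp (mem_erase.mp hf).2).1⟩
    have h4 := card_le_card hsub
    rw [card_powersetCard] at h4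
    have h5 : (N \ g).card.choose 2 ≤ (3 : ℕ).choose 2 := Nat.choose_le_choose 2 h3
    have h6 : (3 : ℕ).choose 2 = 3 := by decide
    have h7 := card_sdiff_add_card_inter N g
    have h8 : (N ∩ g).card ≤ 2 := by
      have := card_le_card (inter_subset_right : N ∩ g ⊆ g)
      rwa [hF g ((hF'mem g).mp hgF).1] at this
    omega
  -- so `N` has at most four elements
  have hN4 : N.card ≤ 4 := by
    by_contra hc
    push Not at hc
    obtain ⟨g, hgF⟩ : F'.Nonempty := card_pos.mp (by omega)
    apply hg g hgF
    have h7 := card_sdiff_add_card_inter N g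
    have h8 : (N ∩ g).card ≤ 2 := by
      have := card_le_card (inter_subset_right : N ∩ g ⊆ g)
      rwa [hF g ((hF'mem g).mp hgF).1] at this
    omega
  have hN3 : N.card ≤ 3 := by
    by_contra hc
    push Not at hc
    have hall : F' ⊆ powersetCard 2 N := by
      intro g hgF
      rw [mem_powersetCard]
      refine ⟨?_, hF g ((hF'mem g).mp hgF).1⟩
      by_contra hns
      apply hg g hgF
      have h7 := card_sdiff_add_card_inter N g
      have h8 : (N ∩ g).card < 2 := by
        have h9 : N ∩ g ⊂ g := by
          refine ⟨inter_subset_right, fun h => hns (fun w hw => (mem_inter.mp (h hw)).1)⟩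
        have := card_lt_card h9
        rwa [hF g ((hF'mem g).mp hgF).1] at this
      omega
    have h1 := card_le_card hall
    rw [card_powersetCard] at h1
    have h2 : N.card.choose 2 ≤ (4 : ℕ).choose 2 := Nat.choose_le_choose 2 hN4
    have h3 : (4 : ℕ).choose 2 = 6 := by decide
    omega
  have hdeg : ∀ y, (E y).card ≤ 3 := by
    intro y
    have := hmax y (mem_univ y)
    omega
  -- covering
  have hcov : ∀ A : Finset (Fin n), F ⊆ F.filter (· ⊆ Aᶜ) ∪ A.biUnion E := by
    intro A S hS
    rw [mem_union, mem_filter, mem_biUnion]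
    by_cases h : S ⊆ Aᶜ
    · exact Or.inl ⟨hS, h⟩
    · right
      rw [not_subset] at h
      obtain ⟨w, hw, hwA⟩ := h
      rw [mem_compl, not_not] at hwA
      exact ⟨w, hwA, mem_filter.mpr ⟨hS, hw⟩⟩
  rcases Nat.lt_or_ge N.card 2 with hN | hN
  · have hdeg1 : ∀ y, (E y).card ≤ 1 := by
      intro y
      have := hmax y (mem_univ y)
      omega
    obtain ⟨e, he, f, hf, hef⟩ := one_lt_card.mp (by omega : 1 < F'.card)
    have heF := ((hF'mem e).mp he).1
    have hfF := ((hF'mem f).mp hf).1
    have h1 := pair_le F (e ∪ f) e f heF hfF hef subset_union_left subset_union_right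
    have h2 := card_le_card (hcov (e ∪ f))
    have h3 := (h2.trans (card_union_le _ _))
    have h4 : ((e ∪ f).biUnion E).card ≤ (e ∪ f).card * 1 :=
      card_biUnion_le_card_mul _ _ _ (fun y _ => hdeg1 y)
    have h5 : (e ∪ f).card ≤ 4 := by
      have := card_union_le e f
      rw [hF e heF, hF f hfF] at this
      exact this
    rcases dichotomy 2 2 F hUI (e ∪ f) (e ∪ f)ᶜ disjoint_compl_right with h | h <;> omega
  · obtain ⟨y, hy, z, hz, hyz⟩ := one_lt_card.mp (by omega : 1 < N.card)
    have hyF := ((hNmem y).mp hy).2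
    have hzF := ((hNmem z).mp hz).2
    have h1 := pair_le F {x, y, z} {x, y} {x, z} hyF hzF
      (fun h => hyz (pair_inj x y z ((hNmem y).mp hy).1 h))
      (by intro w; simp only [mem_insert, mem_singleton]; tauto)
      (by intro w; simp only [mem_insert, mem_singleton]; tauto)
    have h2 := card_le_card (hcov {x, y, z})
    have h3 := (h2.trans (card_union_le _ _))
    have h4 : (({x, y, z} : Finset (Fin n)).biUnion E).card ≤
        ({x, y, z} : Finset (Fin n)).card * 3 :=
      card_biUnion_le_card_mul _ _ _ (fun y _ => hdeg y)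
    have h5 : ({x, y, z} : Finset (Fin n)).card ≤ 3 := card_le_three
    rcases dichotomy 2 2 F hUI {x, y, z} ({x, y, z} : Finset (Fin n))ᶜ
      disjoint_compl_right with h | h <;> omega

theorem star_plus {n : ℕ} (hn : 3 ≤ n) : n ∈ sizes n 2 2 2 := by
  classical
  let x : Fin n := ⟨0, by omega⟩
  let T : Finset (Fin n) := {⟨1, by omega⟩, ⟨2, by omega⟩}
  let St : Finset (Finset (Fin n)) := (univ.erase x).image (fun y => ({x, y} : Finset (Fin n)))
  have hT : T.card = 2 := by
    apply card_pair
    intro h
    simpa using congrArg Fin.val h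
  have hxT : x ∉ T := by
    intro h
    simp only [T, mem_insert, mem_singleton] at h
    rcases h with h | h
    · simpa [x] using congrArg Fin.val h
    · simpa [x] using congrArg Fin.val h
  have hSt : ∀ S ∈ St, x ∈ S := by
    intro S hS
    obtain ⟨y, _, rfl⟩ := mem_image.mp hS
    simp
  have hTSt : T ∉ St := fun h => hxT (hSt T h)
  refine ⟨insert T St, ?_, ?_, ?_⟩
  · intro S hS
    rw [mem_insert] at hS
    rcases hS with rfl | hS
    · exact hT
    · obtain ⟨y, hy, rfl⟩ := mem_image.mp hS
      exact card_pair (fun h => (mem_erase.mp hy).1 h.symm)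
  · intro P Q hP hQ hPc hQc
    have key : ∀ R : Finset (Finset (Fin n)), R ⊆ insert T St → R.card = 2 →
        x ∈ R.biUnion id := by
      intro R hR hRc
      by_contra hx
      have h1 : R ⊆ {T} := by
        intro S hS
        rw [mem_singleton]
        rcases mem_insert.mp (hR hS) with h | h
        · exact h
        · exact absurd (mem_biUnion.mpr ⟨S, hS, hSt S h⟩) hx
      have h2 := card_le_card h1
      rw [card_singleton] at h2
      omega
    exact ⟨x, mem_inter.mpr ⟨key P hP hPc, key Q hQ hQc⟩⟩
  · rw [card_insert_of_notMem hTSt]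
    have : St.card = n - 1 := by
      rw [card_image_of_injOn, card_erase_of_mem (mem_univ _), card_univ, Fintype.card_fin]
      intro y hy z _ h
      exact pair_inj x y z (mem_erase.mp hy).1 h
    omega

theorem graph_case (n : ℕ) :
    IsGreatest (sizes n 2 2 2) (if n ≤ 5 then n.choose 2 else max n 10) := by
  split_ifs with h
  · constructor
    · refine ⟨powersetCard 2 univ, fun S hS => (mem_powersetCard.mp hS).2,
        ui_powerset 2 3 3 2 2 (by decide) (by decide) univ
          (by rw [card_univ, Fintype.card_fin]; omega), ?_⟩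
      rw [card_powersetCard, card_univ, Fintype.card_fin]
    · rintro c ⟨F, hF, -, rfl⟩
      have : F ⊆ powersetCard 2 (univ : Finset (Fin n)) := by
        intro S hS
        rw [mem_powersetCard]
        exact ⟨subset_univ _, hF S hS⟩
      have := card_le_card this
      rwa [card_powersetCard, card_univ, Fintype.card_fin] at this
  · constructor
    · rcases Nat.lt_or_ge n 10 with h10 | h10
      · rw [max_eq_right h10.le]
        obtain ⟨U, -, hU⟩ := exists_subset_card_eq
          (by rw [card_univ, Fintype.card_fin]; omega : 5 ≤ (univ : Finset (Fin n)).card)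
        refine ⟨powersetCard 2 U, fun S hS => (mem_powersetCard.mp hS).2,
          ui_powerset 2 3 3 2 2 (by decide) (by decide) U (by omega), ?_⟩
        rw [card_powersetCard, hU]
        decide
      · rw [max_eq_left h10]
        exact star_plus (by omega)
    · rintro c ⟨F, hF, hUI, rfl⟩
      exact graph_upper F hF hUI

/-- **The numbers `m(n,k,u,v)` for small `n`.** -/
theorem result :
    (∀ n k a b u v : ℕ, 1 ≤ k → k ≤ a → k ≤ b → (a - 1).choose k < u → u ≤ a.choose k →
      (b - 1).choose k < v → v ≤ b.choose k →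
      (n < a + b → IsGreatest (sizes n k u v) (n.choose k)) ∧
      (a + b ≤ n → ∀ c ∈ sizes n k u v,
        n.choose k * (a.choose k + 1 - u) * (b.choose k + 1 - v) ≤
          (n.choose k - c) *
            (a.choose k * (b.choose k + 1 - v) + b.choose k * (a.choose k + 1 - u))) ∧
      (u = (a - 1).choose k + 1 → v = (b - 1).choose k + 1 → n = a + b →
        IsGreatest (sizes n k u v) ((n - 1).choose k))) ∧
    (∀ k d e : ℕ, 2 ≤ k → 1 ≤ d → 1 ≤ e → ∃ N : ℕ, IsLeast (colourNumbers k d e) N ∧
      ∃ a₀ : ℕ, ∀ a b : ℕ, a₀ ≤ a → a₀ ≤ b →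
        (a - 1).choose k < a.choose k + 1 - d ∧ (b - 1).choose k < b.choose k + 1 - e ∧
        IsGreatest (sizes (a + b) k (a.choose k + 1 - d) (b.choose k + 1 - e))
          ((a + b).choose k - N)) ∧
    (∀ n : ℕ, IsGreatest (sizes n 2 2 2) (if n ≤ 5 then n.choose 2 else max n 10)) := by
  refine ⟨fun n k a b u v hk ha hb hu hu' hv hv' => small_n n k a b u v hk ha hb hu hu' hv hv',
    ?_, graph_case⟩
  intro k d e hk hd he
  classical
  have hne := colour_nonempty k d e (by omega)
  have hL : IsLeast (colourNumbers k d e) (sInf (colourNumbers k d e)) :=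
    ⟨Nat.sInf_mem hne, fun x hx => Nat.sInf_le hx⟩
  exact ⟨_, hL, fixed_defect k d e _ hk hd he hL⟩

end Pool.Agent.Results.MP_fffc5a_co.SmallN
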